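import Pool.Agent.H35.ZCL.Asec
import Pool.Agent.H89.ZCL.ChsTls2
import Pool.Agent.H95.S6.EndF
import Pool.Agent.H14.S6.AzT
import Pool.Agent.H42.S6C.Defs

/-!
# The end of the top

`endw_thm`: the directions are not constant on all windows, at the rows near the top, except for
directions which are known completely. The A-zoom at a small window has leaves, and its violation
is large.
-/

set_option autoImplicit false

namespace Pool.S6C

open Finset Real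
open Pool.Agent.H49.Ent Pool.Agent.H32.Dense Pool.STK Pool.KA Pool.KSAT Pool.K2S Pool.PB Pool.ZCL

/-- The straightness is not negative. -/
theorem pi_nonneg {S : PCl 3} (hS : S.Ne) {i₀ : Fin 3} {Q pi : ℝ}
    (h : PNum S (capS 1 (qPi i₀ Q)) pi) : 0 ≤ pi := by
  by_contra hcon
  push Not at hcon
  refine Clp.not_false hS (Clp.mono (J₂ := 0) (h.2 (-pi) (by linarith only [hcon])) ?_)
  intro J _ F A h1
  exact h1 (Or.inl (by linarith only))

/-- **(ENDW)** -/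
theorem endw_thm : ENDWStmt := by
  intro hSTP hSLP S₀ a R h₁ i₀ c s₂ r D σ hC₀
  obtain ⟨S, hSub, -, hBT⟩ := btail_sub hC₀
  have hC : Cs S a R h₁ i₀ c s₂ r D σ := hC₀.le hSub
  have hR0 := hC.R0
  obtain ⟨x, hx, g₀, hg₀, t, ht, hend⟩ := end_fam 1 (R := R / 4) (by positivity)
  obtain ⟨g, hge⟩ : ∃ g, g = min g₀ 1 := ⟨_, rfl⟩
  have hg : 0 < g := by rw [hge]; exact lt_min hg₀ one_pos
  have hg1 : g ≤ 1 := by rw [hge]; exact min_le_right _ _
  have hgg : g ≤ g₀ := by rw [hge]; exact min_le_left _ _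
  refine ⟨1 - R / 24, by linarith only [hR0], fun Q hQQ hQh hQ1 hQD hP hpi hall => ?_⟩
  have hQ0 : 0 < Q := by linarith only [hQh]
  have H : AzH S a R h₁ i₀ Q (σ Q).pi := AzH.of_cs hC hQ0 hQ1 hQD
  have hRw := hC.row Q hQ0 hQ1 hQD
  have hpi0 : 0 ≤ (σ Q).pi := pi_nonneg hC.ne H.pi
  have hT : BTail S c Q := hBT Q hQ0.le hQ1 hP
  -- the scales
  obtain ⟨e, he⟩ : ∃ e, e = min ((Q - (σ Q).pi) / 4) 1 := ⟨_, rfl⟩
  have he0 : 0 < e := by rw [he]; exact lt_min (by linarith only [hpi]) one_pos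
  have he1 : e ≤ (Q - (σ Q).pi) / 4 := by rw [he]; exact min_le_left _ _
  obtain ⟨N, K₁, hleaf⟩ := az_leaf hSTP hSLP (fun S => chs_of_tls) H hC.c0 hT
    (e := 2 * e) (by positivity) hx (fun _ => 0)
  obtain ⟨ψ, hψ, hSp⟩ := az_S_bas H (e := 2 * e) (by positivity) hg hg1
  obtain ⟨τT, hτT, hTm⟩ := az_T (m := 3) (R := R) H.a1 i₀ (e := t * e) (by positivity)
  obtain ⟨τV, hτV, J₂, hVV⟩ := az_V (m := 3) H.a1 H.R0 H.ub H.h₁0 i₀ (e := R / 8) (by positivity)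
  -- the costs
  obtain ⟨δ, hδ⟩ : ∃ δ, δ = min (ψ / 2) (min (τT / 4) (τV / 4)) := ⟨_, rfl⟩
  have hδ0 : 0 < δ := by rw [hδ]; positivity
  have hδ1 : δ ≤ ψ / 2 := by rw [hδ]; exact min_le_left _ _
  have hδ2 : δ ≤ τT / 4 := by rw [hδ]; exact (min_le_right _ _).trans (min_le_left _ _)
  have hδ3 : δ ≤ τV / 4 := by rw [hδ]; exact (min_le_right _ _).trans (min_le_right _ _)
  obtain ⟨b, hb, hleaf⟩ := hleaf δ hδ0
  obtain ⟨ζ, hζ⟩ : ∃ ζ, ζ = min b (2 * e * g / 16) := ⟨_, rfl⟩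
  have hζ0 : 0 < ζ := by rw [hζ]; exact lt_min hb (by positivity)
  have hζb : ζ ≤ b := by rw [hζ]; exact min_le_left _ _
  have hζg : ζ ≤ 2 * e * g / 16 := by rw [hζ]; exact min_le_right _ _
  obtain ⟨w, hw0, hw⟩ := exists_rat_btwn (show (0 : ℝ) < min e (R / 24) by
    exact lt_min he0 (by positivity))
  have hwe : (w : ℝ) < e := hw.trans_le (min_le_left _ _)
  have hwR : (w : ℝ) < R / 24 := hw.trans_le (min_le_right _ _)
  have hw0' : 0 < w := by exact_mod_cast hw0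
  have hw1' : w ≤ 1 := by
    have : (w : ℝ) ≤ 1 := by linarith only [hQ1, hpi0, he1, hwe]
    exact_mod_cast this
  obtain ⟨s, hs⟩ : ∃ s, s = (σ Q).pi - ζ := ⟨_, rfl⟩
  have hmax : max s 0 ≤ (σ Q).pi := max_le (by linarith only [hζ0, hs]) hpi0
  have hws : (w : ℝ) + max s 0 + 2 * e ≤ Q := by linarith only [he1, hw0, hwe, hmax]
  have hrot : Clp S (capS 1 (qRot i₀ Q w) s) := by
    have h1 := (hRw.rot w hw0'.le hw1').1 ζ hζ0
    rw [hall w hw0' hw1', ← hs] at h1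
    exact h1
  obtain ⟨J₁, hSp⟩ := hSp w s hw0.le hws (by linarith only [hζg, hs])
  obtain ⟨ψ₀, hψ₀, hleaf⟩ := hleaf δ hδ0 w s hw0.le hws (by linarith only [hζb, hs]) hrot
  -- the resolution of the zooms
  have hex : ∀ K : ℕ, ∃ J₃ : ℕ, 1 ≤ N → ∀ J ≥ J₃, ∀ (F : Fam (1 + 2) J) (A : F.Ω → Prop)
    (i₁ : Fin (1 + 2)) (i p ρ : ℕ), (i : ℝ) ≤ x * N → (1 - x) * N ≤ (p : ℝ) → p ≤ ρ → ρ ≤ N →
    0 < Pe F.p A → (∀ A' : F.Ω → Prop, Sub A' A → Pe F.p A ≤ 2 * Pe F.p A' →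
      ∀ hlaw : IsLaw (cond F.p A' True), (F.res A' True hlaw).Tm (t * J) ∧
        (R / 4 - t) * J ≤ (F.res A' True hlaw).V J) →
    Sp F 1 ψ g₀ A → Bl F i₁ N K ρ i p A → False := by
    intro K
    by_cases hN : 1 ≤ N
    · obtain ⟨J₃, hJ₃⟩ := hend ψ hψ K N hN
      exact ⟨J₃, fun _ => hJ₃⟩
    · exact ⟨0, fun h => absurd h hN⟩
  choose J₃ hJ₃ using hex
  obtain ⟨M, hM⟩ : ∃ M, M = ∑ K ∈ range (K₁ + 1), J₃ K := ⟨_, rfl⟩
  have hMK : ∀ K ≤ K₁, J₃ K ≤ M := fun K hK => by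
    rw [hM]
    exact Finset.single_le_sum (f := J₃) (fun _ _ => Nat.zero_le _)
      (Finset.mem_range.2 (by omega))
  obtain ⟨J₄, hJ₄⟩ := exists_nat_gt (2 / e + M / e + Real.log 2 / δ + 24 / R + 16)
  refine Clp.not_false hC.ne (Clp.mono (J₂ := max (max J₁ J₂) J₄)
    (hleaf.and (Clp.of (Φ := fun J F A => S.St δ J F A) hδ0 0 fun _ _ _ _ hA => hA)) ?_)
  rintro J hJ F A ⟨hlf, hSt⟩
  have hJ1 : J₁ ≤ J := (le_max_left _ _).trans ((le_max_left _ _).trans hJ)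
  have hJ2 : J₂ ≤ J := (le_max_right _ _).trans ((le_max_left _ _).trans hJ)
  have hJ4 : 2 / e + M / e + Real.log 2 / δ + 24 / R + 16 < J :=
    hJ₄.trans_le (by exact_mod_cast (le_max_right _ _).trans hJ)
  have hl2 : 0 < Real.log 2 := Real.log_pos one_lt_two
  have hl21 : Real.log 2 ≤ 1 := by have := Real.log_two_lt_d9; linarith only [hQ1, hpi0, he1, hw0, hwe, this]
  have q1 : 0 < 2 / e := by positivity
  have q2 : 0 ≤ M / e := by positivity
  have q3 : 0 < Real.log 2 / δ := by positivity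
  have q4 : 0 < 24 / R := by positivity
  have hJr : (0 : ℝ) < J := by linarith only [hJ4, q1, q2, q3, q4]
  have r1 : 2 / (2 * e) ≤ (J : ℝ) := by
    have : 2 / (2 * e) ≤ 2 / e := div_le_div_of_nonneg_left (by norm_num) he0 (by linarith only [hw0, hwe])
    linarith only [hJ4, q2, q3, q4, this]
  have r2 : (M : ℝ) ≤ e * J := by
    have : M / e < J := by linarith only [hJ4, q1, q3, q4]
    rw [div_lt_iff₀ he0] at this
    linarith only [this]
  have r3 : Real.log 2 ≤ δ * J := by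
    have : Real.log 2 / δ < J := by linarith only [hJ4, q1, q2, q4]
    rw [div_lt_iff₀ hδ0] at this
    linarith only [this]
  have r4 : 24 ≤ R * J := by
    have : 24 / R < J := by linarith only [hJ4, q1, q2, q3]
    rw [div_lt_iff₀ hR0] at this
    linarith only [this]
  obtain ⟨A₂, z, hsub, hPA₂, hz, hA₂, h, -, B, hPB, K, hK, -, i₁, i, p, ρ, hi, hiρ, hp, hpρ,
    hρN, hBl⟩ := hlf A (fun _ h => h) (by
      have h1 : Real.exp (-(ψ₀ * J)) ≤ 1 := Real.exp_le_one_iff.2 (by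
        have : 0 ≤ ψ₀ * (J : ℝ) := by positivity
        linarith only [this])
      have := mul_le_mul_of_nonneg_right h1 (Pe_nonneg F.isLaw A)
      linarith only [this])
  obtain ⟨hadd, hJ'⟩ := azJ_add (Q := Q) (w := w) (s := s) (e := 2 * e) (by positivity) hw0.le
    hws r1
  have hJ'e2 : e * J ≤ (azJ Q w s J : ℕ) := by
    have : 2 * e / 2 * (J : ℝ) = e * J := by ring
    linarith only [hJ']
  -- the family
  have hStA : S.St (2 * δ) J F A₂ := by
    have h1 := S.res hδ0.le hSt hsub hPA₂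
    have e1 : δ + δ = 2 * δ := by ring
    rwa [e1] at h1
  have hstt := H.st _ _ _ _ hStA
  have hlb := H.lb _ _ _ _ hStA
  have hfl := floor_le_J hQ1 J
  have hJ'J : ((azJ Q w s J : ℕ) : ℝ) ≤ J := by
    have : azJ Q w s J ≤ J := by omega
    exact_mod_cast this
  have hδJ : δ * ((azJ Q w s J : ℕ) : ℝ) ≤ δ * J := mul_le_mul_of_nonneg_left hJ'J hδ0.le
  -- events of the zoom which are not too small
  have hbig : ∀ A' : F.Ω → Prop, Pe (cond F.p A₂ True) B ≤ 2 * Pe (cond F.p A₂ True) A' →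
      Real.exp (-((2 * δ) * J)) ≤ Pe (cond F.p A₂ True) A' := by
    intro A' hA'
    have h1 : Real.exp (-((2 * δ) * J)) * 2 ≤ Real.exp (-(δ * (azJ Q w s J : ℕ))) := by
      have h2 : (2 : ℝ) = Real.exp (Real.log 2) := by rw [Real.exp_log (by norm_num)]
      calc Real.exp (-((2 * δ) * J)) * 2 = Real.exp (-((2 * δ) * J)) * Real.exp (Real.log 2) := by
            rw [← h2]
        _ = Real.exp (-((2 * δ) * J) + Real.log 2) := by rw [← Real.exp_add]
        _ ≤ _ := Real.exp_le_exp.2 (by linarith only [r3, hδJ])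
    linarith only [hPB, hA', h1]
  refine hJ₃ K (by omega) (azJ Q w s J) ?_ (azG F i₀ Q w s A₂ z hA₂ h) B i₁ i p ρ hi hp hpρ.le
    hρN ?_ ?_ ?_ hBl
  · have h1 : (J₃ K : ℝ) ≤ M := by exact_mod_cast hMK K hK
    have h2 : (J₃ K : ℝ) ≤ azJ Q w s J := by linarith only [r2, hJ', h1]
    exact_mod_cast h2
  · exact lt_of_lt_of_le (Real.exp_pos _) hPB
  · intro A' hA' hPA' hlaw
    have h1 := hbig A' hPA'
    constructor
    · have h2 := hTm J F A₂ (Fam.Stt.mono (by linarith only [hδ0, hδ2]) hstt) ⌊Q * J⌋₊ ⌊(w : ℝ) * J⌋₊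
        ⌊s * (J : ℝ)⌋₊ (azJ Q w s J) z h hz hA₂ A' (le_trans (Real.exp_le_exp.2 (by
          have := mul_le_mul_of_nonneg_right (show 2 * δ ≤ τT by linarith only [hδ0, hδ2]) hJr.le
          linarith only [this])) h1) hlaw
      have h3 : t * e * J ≤ t * (azJ Q w s J : ℕ) := by
        rw [mul_assoc]
        exact mul_le_mul_of_nonneg_left hJ'e2 ht.le
      unfold Fam.Tm at h2 ⊢
      linarith only [hA₂, h, hlaw, h2, h3]
    · have h2 := hVV J hJ2 F A₂ (Fam.Stt.mono (by linarith only [hδ0, hδ3]) hstt) hlb ⌊Q * J⌋₊ ⌊(w : ℝ) * J⌋₊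
        ⌊s * (J : ℝ)⌋₊ (azJ Q w s J) z h hadd.le hfl hz hA₂ A' (le_trans (Real.exp_le_exp.2 (by
          have := mul_le_mul_of_nonneg_right (show 2 * δ ≤ τV by linarith only [hδ0, hδ3]) hJr.le
          linarith only [this])) h1) hlaw
      refine le_trans ?_ h2
      have h4 : (⌊(w : ℝ) * J⌋₊ : ℝ) + (azJ Q w s J : ℕ) + (⌊s * (J : ℝ)⌋₊ : ℝ) = ⌊Q * J⌋₊ := by
        exact_mod_cast hadd
      have h5 : (⌊(w : ℝ) * J⌋₊ : ℝ) ≤ w * J := Nat.floor_le (by positivity)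
      have h6 : Q * J < ⌊Q * (J : ℝ)⌋₊ + 1 := Nat.lt_floor_add_one _
      have h7 : (J : ℝ) - (azJ Q w s J : ℕ) - (⌊s * (J : ℝ)⌋₊ : ℝ) ≤ R / 12 * J + 1 := by
        have h8 : (1 - R / 24) * (J : ℝ) ≤ Q * J := mul_le_mul_of_nonneg_right hQQ hJr.le
        have h9 : (w : ℝ) * J ≤ R / 24 * J := mul_le_mul_of_nonneg_right hwR.le hJr.le
        linarith only [h4, h5, h6, h8, h9]
      have h8 : ((J : ℝ) - (azJ Q w s J : ℕ) - (⌊s * (J : ℝ)⌋₊ : ℝ)) * Real.log 2 ≤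
          R / 12 * J + 1 := by
        have h9 : 0 ≤ (J : ℝ) - (azJ Q w s J : ℕ) - (⌊s * (J : ℝ)⌋₊ : ℝ) := by
          have : azJ Q w s J + ⌊s * (J : ℝ)⌋₊ ≤ J := by omega
          have : ((azJ Q w s J + ⌊s * (J : ℝ)⌋₊ : ℕ) : ℝ) ≤ J := by exact_mod_cast this
          push_cast at this
          linarith only [this]
        calc _ ≤ ((J : ℝ) - (azJ Q w s J : ℕ) - (⌊s * (J : ℝ)⌋₊ : ℝ)) * 1 :=
              mul_le_mul_of_nonneg_left hl21 h9
          _ ≤ _ := by linarith only [h7]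
      have h9 : (R / 4 - t) * ((azJ Q w s J : ℕ) : ℝ) ≤ R / 4 * J := by
        have h10 : (R / 4 - t) * ((azJ Q w s J : ℕ) : ℝ) ≤ R / 4 * (azJ Q w s J : ℕ) :=
          mul_le_mul_of_nonneg_right (by linarith only [ht]) (Nat.cast_nonneg _)
        exact h10.trans (mul_le_mul_of_nonneg_left hJ'J (by positivity))
      push_cast at h8 ⊢
      nlinarith only [r4, h8, h9]
  · refine Sp.mono le_rfl hgg ?_
    intro B' hB' hPB'
    refine hSp J hJ1 F A₂ (S.mono (by linarith only [hδ1]) hStA) z hz h hA₂ B' ?_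
    refine le_trans ?_ hPB'
    refine le_trans ?_ (mul_le_mul_of_nonneg_left hPB (Real.exp_pos _).le)
    rw [← Real.exp_add]
    refine Real.exp_le_exp.2 ?_
    have h1 : δ * ((azJ Q w s J : ℕ) : ℝ) ≤ ψ * (azJ Q w s J : ℕ) :=
      mul_le_mul_of_nonneg_right (by linarith only [hδ0, hδ1]) (Nat.cast_nonneg _)
    have h2 : 0 ≤ ψ * ((azJ Q w s J : ℕ) : ℝ) := by positivity
    linarith only [h1, h2]

end Pool.S6C
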