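import Pool.Agent.H31.M5.H2

/-!
# Principle M, macro form

`b 0, b 1, ...` are nested contexts at a common time `T` (the row of the box grows with `j`), and
`v j` are the frame digits: one variable, up to errors. `Z j` is a block of digits which is known
`s` contexts later. The sum over `j` of the dependences of `v j` on `Z j`, given `b j` and `T`, is
at most `s` times the entropy of the frame digits, plus the errors: for most `j` the frames are
almost independent of the block.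
-/

set_option autoImplicit false

namespace Pool.PRM

open Finset Real
open Pool.Agent.H49.Ent Pool.Agent.H32.Dense Pool.STK Pool.KVA Pool.M5

section basic

variable {Ω S S' T U V : Type} [Fintype Ω] {p : Ω → ℝ}

/-- Chain rule of the mutual information in the second variable. -/
theorem MI_chain_right (hp : ∀ ω, 0 ≤ p ω) (X : Ω → S) (Y : Ω → T) (Z : Ω → U) (b : Ω → V) :
    MI p X (fun ω => (Y ω, Z ω)) b = MI p X Y b + MI p X Z (fun ω => (Y ω, b ω)) := by
  rw [MI_eq hp, MI_eq hp, MI_eq hp]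
  have h : CH p X (fun ω => ((Y ω, Z ω), b ω)) = CH p X (fun ω => (Z ω, (Y ω, b ω))) := by
    refine CH_congr hp ?_ ?_ ?_ ?_ <;> intro ω ω' _ _ h <;> simp only [Prod.mk.injEq] at h ⊢ <;>
      tauto
  rw [h]
  ring

/-- Symmetry. -/
theorem MI_symm (hp : ∀ ω, 0 ≤ p ω) (X : Ω → S) (Y : Ω → T) (b : Ω → U) :
    MI p X Y b = MI p Y X b := by
  unfold MI
  have h : CH p (fun ω => (X ω, Y ω)) b = CH p (fun ω => (Y ω, X ω)) b := by
    refine CH_congr hp ?_ ?_ (fun _ _ _ _ h => h) (fun _ _ _ _ h => h) <;>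
    · intro ω ω' _ _ h
      simp only [Prod.mk.injEq] at h ⊢
      tauto
  rw [h]
  ring

/-- Chain rule of the mutual information in the first variable. -/
theorem MI_chain_left (hp : ∀ ω, 0 ≤ p ω) (X : Ω → S) (Y : Ω → T) (Z : Ω → U) (b : Ω → V) :
    MI p (fun ω => (X ω, Y ω)) Z b = MI p X Z b + MI p Y Z (fun ω => (X ω, b ω)) := by
  rw [MI_symm hp, MI_chain_right hp, MI_symm hp Z X, MI_symm hp Z Y]

/-- The mutual information is at most the entropy. -/
theorem MI_le_CH (hp : ∀ ω, 0 ≤ p ω) (X : Ω → S) (Y : Ω → T) (b : Ω → U) :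
    MI p X Y b ≤ CH p Y b := by
  rw [MI_symm hp, MI_eq hp]
  linarith [CH_nonneg hp Y (fun ω => (X ω, b ω))]

theorem MI_le_CH' (hp : ∀ ω, 0 ≤ p ω) (X : Ω → S) (Y : Ω → T) (b : Ω → U) :
    MI p X Y b ≤ CH p X b := by
  rw [MI_symm hp]
  exact MI_le_CH hp Y X b

/-- A variable which is almost a function of another one, second place. -/
theorem MI_le_add (hp : ∀ ω, 0 ≤ p ω) (X : Ω → S) (Y : Ω → T) (Y' : Ω → U) (b : Ω → V) :
    MI p X Y b ≤ MI p X Y' b + CH p Y (fun ω => (Y' ω, b ω)) := by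
  have h1 := MI_chain_right hp X Y' Y b
  have h2 := MI_chain_right hp X Y Y' b
  have h3 := MI_nonneg hp X Y' (fun ω => (Y ω, b ω))
  have h4 := MI_le_CH hp X Y (fun ω => (Y' ω, b ω))
  have h5 : MI p X (fun ω => (Y ω, Y' ω)) b = MI p X (fun ω => (Y' ω, Y ω)) b := by
    rw [MI_eq hp, MI_eq hp]
    have h : CH p X (fun ω => ((Y ω, Y' ω), b ω)) = CH p X (fun ω => ((Y' ω, Y ω), b ω)) := by
      refine CH_congr hp ?_ ?_ ?_ ?_ <;> intro ω ω' _ _ h <;>
        simp only [Prod.mk.injEq] at h ⊢ <;> tauto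
    rw [h]
  linarith

/-- A variable which is almost a function of another one, first place. -/
theorem MI_le_add' (hp : ∀ ω, 0 ≤ p ω) (X : Ω → S) (X' : Ω → T) (Y : Ω → U) (b : Ω → V) :
    MI p X Y b ≤ MI p X' Y b + CH p X (fun ω => (X' ω, b ω)) := by
  rw [MI_symm hp X Y, MI_symm hp X' Y]
  exact MI_le_add hp Y X X' b

/-- More data in the condition, at the price of their entropy. -/
theorem MI_cond_le (hp : ∀ ω, 0 ≤ p ω) (X : Ω → S) (Y : Ω → T) (Z : Ω → U) (b : Ω → V) :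
    MI p X Y (fun ω => (Z ω, b ω)) ≤ MI p X Y b + CH p Z b := by
  have h1 := MI_chain_right hp X Z Y b
  have h2 := MI_chain_right hp X Y Z b
  have h3 := MI_nonneg hp X Z b
  have h4 := MI_le_CH hp X Z (fun ω => (Y ω, b ω))
  have h6 : CH p Z (fun ω => (Y ω, b ω)) ≤ CH p Z b :=
    CH_mono_cond hp fun ω ω' _ _ h => (Prod.ext_iff.1 h).2
  have h5 : MI p X (fun ω => (Y ω, Z ω)) b = MI p X (fun ω => (Z ω, Y ω)) b := by
    rw [MI_eq hp, MI_eq hp]
    have h : CH p X (fun ω => ((Y ω, Z ω), b ω)) = CH p X (fun ω => ((Z ω, Y ω), b ω)) := by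
      refine CH_congr hp ?_ ?_ ?_ ?_ <;> intro ω ω' _ _ h <;>
        simp only [Prod.mk.injEq] at h ⊢ <;> tauto
    rw [h]
  linarith

/-- **Extended times.** The time together with the frames is independent of the line block. -/
theorem mi_ext (hp : ∀ ω, 0 ≤ p ω) (t : Ω → S) (v : Ω → T) (l : Ω → U) (b : Ω → V) {e e' : ℝ}
    (h1 : MI p t l b ≤ e) (h2 : MI p v l (fun ω => (b ω, t ω)) ≤ e') :
    MI p (fun ω => (t ω, v ω)) l b ≤ e + e' := by
  rw [MI_chain_left hp]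
  have h3 : MI p v l (fun ω => (t ω, b ω)) = MI p v l (fun ω => (b ω, t ω)) := by
    unfold MI
    have hh : ∀ {R : Type} (A : Ω → R), CH p A (fun ω => (t ω, b ω)) =
        CH p A (fun ω => (b ω, t ω)) := by
      intro R A
      refine CH_congr hp (fun _ _ _ _ h => (Prod.ext_iff.1 h).1)
        (fun _ _ _ _ h => (Prod.ext_iff.1 h).1) ?_ ?_ <;>
      · intro ω ω' _ _ h
        simp only [Prod.mk.injEq] at h ⊢
        tauto
    rw [hh, hh, hh]
  linarith

end basic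

section chain

variable {Ω τ : Type} [Fintype Ω] {β υ ζ : ℕ → Type}

/-- **Principle M**, sum form: `v j` one variable up to errors `e2`, contexts nested up to errors
`e1`, blocks known `s` contexts later up to errors `e3`. -/
theorem prm_sum {p : Ω → ℝ} (hp : ∀ ω, 0 ≤ p ω) (b : ∀ j, Ω → β j) (v : ∀ j, Ω → υ j)
    (Z : ∀ j, Ω → ζ j) (T : Ω → τ) {e1 e2 e3 L : ℝ} {n : ℕ} (s : ℕ)
    (hb : ∀ j < n, CH p (b j) (fun ω => (b (j + 1) ω, T ω)) ≤ e1)
    (hv : ∀ j < n, CH p (v (j + 1)) (fun ω => (v j ω, (b (j + 1) ω, T ω))) ≤ e2)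
    (hL : ∀ j, CH p (v j) (fun ω => (b j ω, T ω)) ≤ L)
    (hZ : ∀ j, j + s ≤ n → CH p (Z j) (fun ω => (b (j + s) ω, (b j ω, T ω))) ≤ e3) (m : ℕ)
    (hm : m + s ≤ n) :
    ∑ j ∈ range m, MI p (v j) (Z j) (fun ω => (b j ω, T ω)) ≤
      s * L + m * (s * (2 * e1 + e2) + e3) := by
  have h1 := sum_far hp b v T hb hv hL s m hm
  have h2 : ∑ j ∈ range m, MI p (v j) (Z j) (fun ω => (b j ω, T ω)) ≤
      ∑ j ∈ range m, (MI p (v j) (b (j + s)) (fun ω => (b j ω, T ω)) + e3) := by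
    refine Finset.sum_le_sum fun j hj => ?_
    rw [mem_range] at hj
    have a1 := MI_le_add hp (v j) (Z j) (b (j + s)) (fun ω => (b j ω, T ω))
    have a2 := hZ j (by omega)
    linarith
  rw [Finset.sum_add_distrib, Finset.sum_const, card_range, nsmul_eq_mul] at h2
  linarith

/-- **Principle M** for one fixed variable and exactly nested contexts. -/
theorem prm_exact {p : Ω → ℝ} (hp : ∀ ω, 0 ≤ p ω) {V : Type} (b : ∀ j, Ω → β j) (v : Ω → V)
    (Z : ∀ j, Ω → ζ j) (T : Ω → τ) {L : ℝ} {n : ℕ} (s : ℕ)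
    (hb : ∀ j < n, Det p (fun ω => (b (j + 1) ω, T ω)) (b j))
    (hL : ∀ j, CH p v (fun ω => (b j ω, T ω)) ≤ L)
    (hZ : ∀ j, j + s ≤ n → Det p (fun ω => (b (j + s) ω, T ω)) (Z j)) (m : ℕ)
    (hm : m + s ≤ n) :
    ∑ j ∈ range m, MI p v (Z j) (fun ω => (b j ω, T ω)) ≤ s * L := by
  have h1 : ∀ j < n, CH p (b j) (fun ω => (b (j + 1) ω, T ω)) ≤ 0 := fun j hj =>
    (CH_eq_zero hp (hb j hj)).le
  have h2 : ∀ j < n, CH p v (fun ω => (v ω, (b (j + 1) ω, T ω))) ≤ 0 := fun j _ =>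
    (CH_eq_zero hp (X := v) (W := fun ω => (v ω, (b (j + 1) ω, T ω)))
      fun ω ω' _ _ h => (Prod.ext_iff.1 h).1).le
  have h3 : ∀ j, j + s ≤ n → CH p (Z j) (fun ω => (b (j + s) ω, (b j ω, T ω))) ≤ 0 := by
    intro j hj
    refine (CH_eq_zero hp ?_).le
    intro ω ω' a1 a2 h
    refine hZ j hj ω ω' a1 a2 ?_
    have e1 := (Prod.ext_iff.1 h).1
    have e2 := (Prod.ext_iff.1 (Prod.ext_iff.1 h).2).2
    exact Prod.ext e1 e2
  have h := prm_sum (υ := fun _ => V) hp b (fun _ => v) Z T s h1 h2 hL h3 m hm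
  have e : (s : ℝ) * L + m * (s * (2 * 0 + 0) + 0) = s * L := by ring
  rw [e] at h
  exact h

end chain

/-! ### counting -/

/-- Markov inequality for a finite sum. -/
theorem count_le {m : ℕ} (f : ℕ → ℝ) {S δ : ℝ} (h0 : ∀ j < m, 0 ≤ f j)
    (hS : ∑ j ∈ range m, f j ≤ S) :
    δ * (((range m).filter fun j => δ < f j).card : ℝ) ≤ S := by
  have h1 : ∑ j ∈ (range m).filter (fun j => δ < f j), δ ≤ ∑ j ∈ range m, f j := by
    refine (Finset.sum_le_sum fun j hj => (Finset.mem_filter.1 hj).2.le).trans ?_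
    refine Finset.sum_le_sum_of_subset_of_nonneg (Finset.filter_subset _ _) ?_
    intro j hj _
    exact h0 j (mem_range.1 hj)
  rw [Finset.sum_const, nsmul_eq_mul] at h1
  linarith

/-- A common good index for several quantities. -/
theorem exists_good {κ : Type} {m : ℕ} (K : Finset κ) (f : κ → ℕ → ℝ) {S δ : ℝ}
    (h0 : ∀ k ∈ K, ∀ j < m, 0 ≤ f k j) (hS : ∀ k ∈ K, ∑ j ∈ range m, f k j ≤ S)
    (Good : Finset ℕ) (hG : Good ⊆ range m) (hcard : K.card * S < δ * Good.card) :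
    ∃ j ∈ Good, ∀ k ∈ K, f k j ≤ δ := by
  by_contra hcon
  push Not at hcon
  have h1 : δ * (Good.card : ℝ) ≤ ∑ j ∈ Good, ∑ k ∈ K, f k j := by
    have : ∑ _j ∈ Good, δ ≤ ∑ j ∈ Good, ∑ k ∈ K, f k j := by
      refine Finset.sum_le_sum fun j hj => ?_
      obtain ⟨k, hk, hk2⟩ := hcon j hj
      refine hk2.le.trans ?_
      exact Finset.single_le_sum (f := fun k => f k j)
        (fun k hk => h0 k hk j (mem_range.1 (hG hj))) hk
    rw [Finset.sum_const, nsmul_eq_mul] at this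
    linarith
  have h2 : ∑ j ∈ Good, ∑ k ∈ K, f k j ≤ K.card * S := by
    rw [Finset.sum_comm]
    have : ∑ k ∈ K, ∑ j ∈ Good, f k j ≤ ∑ _k ∈ K, S := by
      refine Finset.sum_le_sum fun k hk => le_trans ?_ (hS k hk)
      exact Finset.sum_le_sum_of_subset_of_nonneg hG fun j hj _ => h0 k hk j (mem_range.1 hj)
    rw [Finset.sum_const, nsmul_eq_mul] at this
    linarith
  linarith

section final

variable {Ω τ : Type} [Fintype Ω] {β υ ζ : ℕ → Type}

/-- **Principle M, macro form.** If the entropy of the frame digits is at most `ι² X m / (2 s)` and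
the errors are at most `ι² X / 2` per step, then for all but `ι m` of the indices the frame digits
depend on the block by at most `ι X`. -/
theorem prm {p : Ω → ℝ} (hp : ∀ ω, 0 ≤ p ω) (b : ∀ j, Ω → β j) (v : ∀ j, Ω → υ j)
    (Z : ∀ j, Ω → ζ j) (T : Ω → τ) {e1 e2 e3 L ι X : ℝ} {n : ℕ} (s : ℕ) (hι : 0 < ι) (hX : 0 < X)
    (hb : ∀ j < n, CH p (b j) (fun ω => (b (j + 1) ω, T ω)) ≤ e1)
    (hv : ∀ j < n, CH p (v (j + 1)) (fun ω => (v j ω, (b (j + 1) ω, T ω))) ≤ e2)
    (hL : ∀ j, CH p (v j) (fun ω => (b j ω, T ω)) ≤ L)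
    (hZ : ∀ j, j + s ≤ n → CH p (Z j) (fun ω => (b (j + s) ω, (b j ω, T ω))) ≤ e3) (m : ℕ)
    (hm : m + s ≤ n) (hL' : 2 * (s * L) ≤ ι ^ 2 * X * m)
    (he : 2 * (s * (2 * e1 + e2) + e3) ≤ ι ^ 2 * X) :
    (((range m).filter fun j => ι * X < MI p (v j) (Z j) (fun ω => (b j ω, T ω))).card : ℝ) ≤
      ι * m := by
  have h1 := prm_sum hp b v Z T s hb hv hL hZ m hm
  have h2 := count_le (fun j => MI p (v j) (Z j) (fun ω => (b j ω, T ω)))
    (δ := ι * X) (fun j _ => MI_nonneg hp _ _ _) h1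
  have h3 : (s * L + m * (s * (2 * e1 + e2) + e3) : ℝ) ≤ ι ^ 2 * X * m := by
    have h4 := mul_le_mul_of_nonneg_left he (Nat.cast_nonneg (α := ℝ) m)
    nlinarith
  have h4 : ι * X * (((range m).filter fun j =>
      ι * X < MI p (v j) (Z j) (fun ω => (b j ω, T ω))).card : ℝ) ≤ ι * X * (ι * m) := by
    refine (h2.trans h3).trans (le_of_eq ?_)
    ring
  exact le_of_mul_le_mul_left h4 (by positivity)

end final

end Pool.PRM
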